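import Pool.Agent.Q139.Pon.Main

/-!
# MP_d21a88_gt, Q1: the invariant power with respect to the circumcircle

For all ellipses `E`, `E'` with `E'` strictly inside `E` there is a point `P`, depending only on
the pair, whose power with respect to the circumcircle of a triangle inscribed in `E` and with
sides tangent to `E'` does not depend on the triangle.
-/

set_option autoImplicit false

namespace Pool.Agent.Results.MP_d21a88_gt.CircumPowerInvariant

open Pool.Agent.Q139.Pon

theorem result : ∀ E E' : Ellipse, E'.curve ⊆ E.inside →
    ∃ (P : ℂ) (κ : ℝ), ∀ A B C : ℂ, Poncelet E E' A B C → CircumPower A B C P κ :=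
  fun E E' hin => q1 E E' hin

end Pool.Agent.Results.MP_d21a88_gt.CircumPowerInvariant
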