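import Pool.Agent.Q139.Pon.Example3
import Pool.Agent.Q139.Pon.Euler

/-!
# MP_d21a88_gt, Q2: the power with respect to the Euler circle

There is a pair of ellipses (non-concentric, non-axis-aligned, admitting Poncelet triangles) for
which every point of the plane has non-constant power with respect to the Euler circles of the
Poncelet triangles. On the other hand, if the centres of the Euler circles are not all on one
line, then a point with constant power exists.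
-/

set_option autoImplicit false

namespace Pool.Agent.Results.MP_d21a88_gt.EulerPowerNotInvariant

open Pool.Agent.Q139.Pon

theorem result :
    (∃ E E' : Ellipse, E'.curve ⊆ E.inside ∧ E'.c ≠ E.c ∧ ¬ AxisAligned E E' ∧
      (∃ A B C : ℂ, Poncelet E E' A B C) ∧
      ∀ P : ℂ, ∃ (A B C : ℂ) (κ : ℝ) (A' B' C' : ℂ) (κ' : ℝ),
        Poncelet E E' A B C ∧ EulerPower A B C P κ ∧ Poncelet E E' A' B' C' ∧
          EulerPower A' B' C' P κ' ∧ κ ≠ κ') ∧
    (∀ E E' : Ellipse,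
      (∃ A₁ B₁ C₁ N₁ A₂ B₂ C₂ N₂ A₃ B₃ C₃ N₃ : ℂ,
        Poncelet E E' A₁ B₁ C₁ ∧ IsCentre ((B₁ + C₁) / 2) ((C₁ + A₁) / 2) ((A₁ + B₁) / 2) N₁ ∧
        Poncelet E E' A₂ B₂ C₂ ∧ IsCentre ((B₂ + C₂) / 2) ((C₂ + A₂) / 2) ((A₂ + B₂) / 2) N₂ ∧
        Poncelet E E' A₃ B₃ C₃ ∧ IsCentre ((B₃ + C₃) / 2) ((C₃ + A₃) / 2) ((A₃ + B₃) / 2) N₃ ∧
        ¬ Collinear ℝ {N₁, N₂, N₃}) →
      ∃ (P : ℂ) (κ : ℝ), ∀ A B C : ℂ, Poncelet E E' A B C → EulerPower A B C P κ) := by
  refine ⟨⟨E0, E1, inside0, ?_, not_aligned, ?_, no_point⟩, fun E E' h => q2_generic E E' h⟩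
  · intro h
    have := congrArg Complex.im h
    simp [E0, E1] at this
  · obtain ⟨z1, z2, z3, -, h⟩ := exists_poncelet (l := 1) norm_one
    exact ⟨_, _, _, h⟩

end Pool.Agent.Results.MP_d21a88_gt.EulerPowerNotInvariant
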